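import Pool.Agent.PCS.Stmts

open scoped Pointwise

namespace Pool.Agent.PCS.H81

open Pool.Agent.H50.CIG Pool.Agent.PCS

section

variable {G : ℕ → Type} {X : ℕ → Type} [∀ n, Group (G n)] [∀ n, MulAction (G n) (X n)]
  (sec : ∀ n, G n → X n → G (n + 1))

/-- an iterated section is the section at a vertex -/
theorem isSec_vertex {m : ℕ} (h : G m) (g : G 0) : ∀ (n : ℕ) (k : G n), IsSec sec h n k →
    ∀ w : W X n, (st sec n g w).2 = k → ∃ w' : W X m, (st sec m g w').2 = h := by
  intro n k hk
  induction hk with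
  | refl => exact fun w hw => ⟨w, hw⟩
  | step n k x _ ih =>
    intro w hw
    refine ih (w, x) ?_
    show sec n (st sec n g w).2 x = sec n k x
    rw [hw]

/-- the levels of the tree are finite -/
theorem finite_W [∀ n, Finite (X n)] (n : ℕ) : Finite (W X n) := by
  induction n with
  | zero => exact (inferInstance : Finite Unit)
  | succ n ih =>
    have := ih
    exact (inferInstance : Finite (W X n × X n))

/-- beyond an empty level there are no vertices -/
theorem isEmpty_W {m : ℕ} (hm : IsEmpty (X m)) (n : ℕ) (hn : m < n) : IsEmpty (W X n) := by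
  induction n with
  | zero => exact absurd hn (Nat.not_lt_zero m)
  | succ n ih =>
    rcases Nat.lt_succ_iff_lt_or_eq.mp hn with h | h
    · have := ih h
      exact (inferInstance : IsEmpty (W X n × X n))
    · subst h
      exact (inferInstance : IsEmpty (W X m × X m))

/-- if a level is empty there are only finitely many vertices -/
theorem finite_Vt [∀ n, Finite (X n)] {m : ℕ} (hm : IsEmpty (X m)) : Finite (Vt X) := by
  have : ∀ n, Finite (W X n) := finite_W
  have hinj : Function.Injective (fun v : Vt X =>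
      (⟨⟨v.1, by
        by_contra hc
        exact (isEmpty_W hm v.1 (by omega)).false v.2⟩, v.2⟩ :
          (n : Fin (m + 1)) × W X (n : ℕ))) := by
    rintro ⟨n, w⟩ ⟨n', w'⟩ h
    simp only [Sigma.mk.injEq, Fin.mk.injEq] at h
    obtain ⟨h1, h2⟩ := h
    subst h1
    rw [heq_eq_eq] at h2
    rw [h2]
  exact Finite.of_injective _ hinj

/-- an element which fixes all vertices acts trivially through all its iterated sections -/
theorem fixes_of {g : G 0} (hg : ∀ n (w : W X n), (st sec n g w).1 = w) (m : ℕ) (h : G m)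
    (hs : IsSec sec h 0 g) (x : X m) : h • x = x := by
  obtain ⟨w', hw'⟩ := isSec_vertex sec h g 0 g hs () rfl
  have h1 : (((st sec m g w').1, (st sec m g w').2 • x) : W X m × X m) = (w', x) :=
    hg (m + 1) (w', x)
  have h2 := congrArg Prod.snd h1
  simp only [hw'] at h2
  exact h2

/-- **no empty levels for an infinite group** -/
theorem finite_of_empty [∀ n, Finite (X n)]
    (hsec : ∀ n (g h : G n) (x : X n), sec n (g * h) x = sec n g (h • x) * sec n h x)
    {m : ℕ} (hm : IsEmpty (X m)) (Γ : Subgroup (G 0))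
    (hker : {g : G 0 | g ∈ Γ ∧ ∀ m (h : G m), IsSec sec h 0 g → ∀ x : X m, h • x = x}.Finite) :
    Finite Γ := by
  have : Finite (Vt X) := finite_Vt hm
  let _ := actV sec hsec
  let φ : Γ → (Vt X → Vt X) := fun g v => (g : G 0) • v
  have hfib : ∀ b ∈ (Set.univ : Set (Vt X → Vt X)), (φ ⁻¹' {b}).Finite := by
    intro b _
    rcases (φ ⁻¹' {b}).eq_empty_or_nonempty with h0 | ⟨g0, hg0⟩
    · rw [h0]
      exact Set.finite_empty
    · refine Set.Finite.of_injOn (f := fun g : Γ => ((g0⁻¹ * g : Γ) : G 0)) ?_ ?_ hker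
      · intro g hg
        refine ⟨(g0⁻¹ * g).2, ?_⟩
        refine fun m h hs x => fixes_of sec ?_ m h hs x
        intro n w
        have h1 : φ g = φ g0 := by
          rw [Set.mem_preimage, Set.mem_singleton_iff] at hg hg0
          rw [hg, hg0]
        have h2 : ∀ v : Vt X, (g : G 0) • v = (g0 : G 0) • v := fun v => congrFun h1 v
        have h3' : ∀ v : Vt X, ((g0⁻¹ * g : Γ) : G 0) • v = v := fun v => by
          rw [Subgroup.coe_mul, mul_smul, h2, Subgroup.coe_inv, inv_smul_smul]
        have h3 := h3' ⟨n, w⟩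
        have h4 : (⟨n, (st sec n ((g0⁻¹ * g : Γ) : G 0) w).1⟩ : Vt X) = ⟨n, w⟩ := h3
        exact eq_of_heq (Sigma.mk.inj h4).2
      · intro g _ g' _ hgg
        have := Subtype.ext hgg
        exact mul_left_cancel this
  have := Set.Finite.preimage' (Set.finite_univ (α := Vt X → Vt X)) hfib
  rw [Set.preimage_univ] at this
  exact Set.finite_univ_iff.mp this

end

/-- **FIN** -/
theorem fin (hMAI : MaiStmt) (hTRE : TreStmt) : FinStmt := by
  intro G _ _ X _ _ sec A d q K R hsec hd hA h1A hcon S hS hker hgr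
  by_contra hCI
  have hsub : ((S ∪ S⁻¹ ∪ {1} : Finset (G 0)) : Set (G 0)) ⊆
      (Subgroup.closure (S : Set (G 0)) : Set (G 0)) := by
    intro s hs
    rw [Finset.mem_coe, Finset.mem_union, Finset.mem_union, Finset.mem_inv,
      Finset.mem_singleton] at hs
    rcases hs with (hs | ⟨t, ht, rfl⟩) | rfl
    · exact Subgroup.subset_closure (Finset.mem_coe.mpr hs)
    · exact Subgroup.inv_mem _ (Subgroup.subset_closure (Finset.mem_coe.mpr ht))
    · exact Subgroup.one_mem _
  have himg : ∀ S' : Set (Subgroup.closure (S : Set (G 0))),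
      (∀ s : Subgroup.closure (S : Set (G 0)), s ∈ S' ↔ (s : G 0) ∈ S ∪ S⁻¹ ∪ {1}) →
      ∀ n : ℕ, ((S ∪ S⁻¹ ∪ {1}) ^ n).card = (S' ^ n).ncard := by
    intro S' hS' n
    have h1 : (Subgroup.closure (S : Set (G 0))).subtype '' S' =
        ((S ∪ S⁻¹ ∪ {1} : Finset (G 0)) : Set (G 0)) := by
      ext s
      constructor
      · rintro ⟨t, ht, rfl⟩
        exact Finset.mem_coe.mpr ((hS' t).mp ht)
      · intro hs
        exact ⟨⟨s, hsub hs⟩, (hS' ⟨s, hsub hs⟩).mpr (Finset.mem_coe.mp hs), rfl⟩
    rw [← Set.ncard_coe_finset, Finset.coe_pow, ← h1, ← Set.image_pow,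
      Set.ncard_image_of_injective _ (Subgroup.subtype_injective _)]
  have hinf : Infinite (Subgroup.closure (S : Set (G 0))) := by
    by_contra hfin
    rw [not_infinite_iff_finite] at hfin
    obtain ⟨n, hn⟩ := hgr 0 (Nat.card (Subgroup.closure (S : Set (G 0))))
    rw [himg {s | (s : G 0) ∈ S ∪ S⁻¹ ∪ {1}} (fun _ => Iff.rfl) n, pow_zero, mul_one,
      Nat.cast_lt] at hn
    have h2 := Set.ncard_le_ncard (Set.subset_univ
      ({s : Subgroup.closure (S : Set (G 0)) | (s : G 0) ∈ S ∪ S⁻¹ ∪ {1}} ^ n)) Set.finite_univ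
    rw [Set.ncard_univ] at h2
    omega
  have hne : ∀ n, Nonempty (X n) := by
    intro m
    by_contra hm
    rw [not_nonempty_iff] at hm
    have := finite_of_empty sec hsec hm _ hker
    exact not_finite (Subgroup.closure (S : Set (G 0)))
  obtain ⟨V, _, T, S', rk, hset, hmem⟩ :=
    hTRE G X sec A d q K R hsec hne hd hA h1A hcon S hS hker hinf hCI
  obtain ⟨C, D, hCD⟩ := hMAI _ V T S' rk R K q hset
  obtain ⟨n, hn⟩ := hgr D C
  have h3 := hCD n
  rw [himg (S' : Set (Subgroup.closure (S : Set (G 0))))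
    (fun s => by rw [Finset.mem_coe]; exact hmem s) n] at hn
  have h4 : (((S' : Set (Subgroup.closure (S : Set (G 0)))) ^ n).ncard : ℝ) ≤
      (C : ℝ) * ((n : ℝ) + 1) ^ D := by
    refine (Nat.cast_le.mpr h3).trans (le_of_eq ?_)
    rw [Nat.cast_mul, Nat.cast_pow, Nat.cast_add, Nat.cast_one]
  linarith

end Pool.Agent.PCS.H81
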